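import Pool.Agent.W398.SG.StmC

/-!
# SG-C-CYC1: the cyclic case, rank
-/

set_option autoImplicit false

namespace Pool.Agent.W160.SG.Cyc1

open Pool.Agent.W37.SG Pool.Agent.W398.SG.C Polynomial

/-! ### the polynomial identity -/

theorem poly_id (p : ℕ) [hp : Fact p.Prime] (e : ℕ) : ∃ S : ℤ[X],
    ∑ i ∈ Finset.range p, (X : ℤ[X]) ^ (i * p ^ e) =
      (X - 1) ^ ((p - 1) * p ^ e) + (p : ℤ[X]) * (1 + (X - 1) * S) := by
  obtain ⟨q, hq⟩ : ∃ q, q = p ^ e := ⟨_, rfl⟩
  have hq0 : 0 < q := by rw [hq]; exact pow_pos hp.out.pos e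
  have hp1 : 1 < p := hp.out.one_lt
  have hN : (p - 1) * q + q = p * q := by
    rw [Nat.sub_mul, one_mul]
    exact Nat.sub_add_cancel (Nat.le_mul_of_pos_left q hp.out.pos)
  have hN0 : (p - 1) * q ≠ 0 := Nat.mul_ne_zero (by omega) hq0.ne'
  rw [← hq]
  -- modulo `p`
  have hmod : ∑ i ∈ Finset.range p, (X : (ZMod p)[X]) ^ (i * q) = (X - 1) ^ ((p - 1) * q) := by
    have h1 : ((X : (ZMod p)[X]) - 1) ^ q = X ^ q - 1 := by
      rw [hq, sub_pow_char_pow, one_pow]
    have h2 : ((X : (ZMod p)[X]) - 1) ^ (p * q) = X ^ (p * q) - 1 := by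
      have h3 : p * q = p ^ (e + 1) := by rw [hq, pow_succ]; ring
      rw [h3, sub_pow_char_pow, one_pow]
    have h4 : (X ^ q - 1) * ∑ i ∈ Finset.range p, (X : (ZMod p)[X]) ^ (i * q) =
        X ^ (p * q) - 1 := by
      have h5 := mul_geom_sum ((X : (ZMod p)[X]) ^ q) p
      rw [← pow_mul] at h5
      rw [mul_comm p q, ← h5]
      congr 1
      refine Finset.sum_congr rfl fun i _ => ?_
      rw [← pow_mul, mul_comm]
    have h6 : ((X : (ZMod p)[X]) - 1) ^ q ≠ 0 := by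
      apply pow_ne_zero
      rw [← C_1]
      exact X_sub_C_ne_zero 1
    apply mul_left_cancel₀ h6
    rw [← pow_add, add_comm q, hN, h2, ← h4, h1]
  have hdvd : C (p : ℤ) ∣ (∑ i ∈ Finset.range p, (X : ℤ[X]) ^ (i * q)) -
      (X - 1) ^ ((p - 1) * q) := by
    rw [C_dvd_iff_dvd_coeff]
    intro i
    rw [← ZMod.intCast_zmod_eq_zero_iff_dvd]
    have h1 : ((∑ i ∈ Finset.range p, (X : ℤ[X]) ^ (i * q)) -
        (X - 1) ^ ((p - 1) * q)).map (Int.castRingHom (ZMod p)) = 0 := by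
      rw [Polynomial.map_sub, Polynomial.map_pow, Polynomial.map_sub, Polynomial.map_one,
        Polynomial.map_X, Polynomial.map_sum, ← hmod, sub_eq_zero]
      refine Finset.sum_congr rfl fun i _ => ?_
      rw [Polynomial.map_pow, Polynomial.map_X]
    have h2 := congrArg (fun f => f.coeff i) h1
    simp only [Polynomial.coeff_map, Polynomial.coeff_zero] at h2
    exact h2
  obtain ⟨R, hR⟩ := hdvd
  have hR1 : R.eval 1 = 1 := by
    have h1 := congrArg (fun f => f.eval 1) hR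
    simp only [eval_sub, eval_finsetSum, eval_pow, eval_X, eval_one, one_pow, sub_self,
      eval_mul, eval_C, Finset.sum_const, Finset.card_range, nsmul_eq_mul, mul_one] at h1
    rw [zero_pow hN0, sub_zero] at h1
    have h2 : (p : ℤ) ≠ 0 := by exact_mod_cast hp.out.ne_zero
    have h3 : (p : ℤ) * R.eval 1 = p * 1 := by rw [mul_one]; exact h1.symm
    exact mul_left_cancel₀ h2 h3
  have hroot : IsRoot (R - 1) 1 := by
    rw [IsRoot.def, eval_sub, hR1, eval_one, sub_self]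
  obtain ⟨S, hS⟩ := dvd_iff_isRoot.2 hroot
  refine ⟨S, ?_⟩
  rw [C_1] at hS
  rw [← hS]
  have h3 : (C (p : ℤ) : ℤ[X]) = (p : ℤ[X]) := by simp
  rw [h3] at hR
  have h4 : (p : ℤ[X]) * (1 + (R - 1)) = (p : ℤ[X]) * R := by ring
  rw [h4, ← hR]
  ring

theorem poly_inv (S : ℤ[X]) (p N : ℕ) (Φ : ℤ[X])
    (hΦ : Φ = (X - 1) ^ N + (p : ℤ[X]) * (1 + (X - 1) * S)) :
    ∃ V : ℤ[X], (1 + (X - 1) * S) * V = 1 - (-S) ^ N * Φ := by
  refine ⟨(∑ i ∈ Finset.range N, (-((X - 1) * S)) ^ i) - p * (-S) ^ N, ?_⟩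
  have h1 := mul_neg_geom_sum (-((X - 1) * S)) N
  rw [sub_neg_eq_add] at h1
  rw [mul_sub, h1, hΦ]
  have h2 : (-((X - 1) * S)) ^ N = (X - 1) ^ N * (-S) ^ N := by
    rw [← mul_pow]
    congr 1
    ring
  rw [h2]
  ring

/-! ### `p`-adic integers -/

section padic
variable {p : ℕ} [Fact p.Prime]

theorem zero_of_dvd (x : ℤ_[p]) (h : ∀ n, (p : ℤ_[p]) ^ n ∣ x) : x = 0 := by
  have h1 : IsHausdorff (IsLocalRing.maximalIdeal ℤ_[p]) ℤ_[p] := inferInstance
  refine h1.haus' x fun n => ?_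
  rw [SModEq.sub_mem, smul_eq_mul, Ideal.mul_top, PadicInt.maximalIdeal_eq_span_p,
    Ideal.span_singleton_pow, Ideal.mem_span_singleton, sub_zero]
  exact h n

theorem unit_of_not_dvd {x : ℤ_[p]} (h : ¬ (p : ℤ_[p]) ∣ x) : IsUnit x := by
  rw [PadicInt.isUnit_iff]
  rw [← PadicInt.norm_lt_one_iff_dvd] at h
  exact le_antisymm (PadicInt.norm_le_one x) (not_lt.1 h)

end padic

/-! ### the lattice -/

section lattice
variable {p : ℕ} [Fact p.Prime] {T : Type} [AddCommGroup T] [Module ℤ_[p] T]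

theorem nak (hfin : Module.Finite ℤ_[p] T) (M : Submodule ℤ_[p] T)
    (h : ∀ x : T, ∃ y ∈ M, ∃ t : T, x = y + (p : ℤ_[p]) • t) (x : T) : x ∈ M := by
  have h1 : (⊤ : Submodule ℤ_[p] T) ≤ M := by
    refine Submodule.le_of_le_smul_of_le_jacobson_bot (I := IsLocalRing.maximalIdeal ℤ_[p])
      (Module.finite_def.1 hfin) (IsLocalRing.maximalIdeal_le_jacobson ⊥) ?_
    intro x _
    obtain ⟨y, hy, t, rfl⟩ := h x
    refine Submodule.add_mem_sup hy (Submodule.smul_mem_smul ?_ Submodule.mem_top)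
    rw [PadicInt.maximalIdeal_eq_span_p]
    exact Ideal.mem_span_singleton_self _
  exact h1 Submodule.mem_top

variable (hL : IsLat p T) (π : Module.End ℤ_[p] T) (N : ℕ) (hN : 0 < N)
  (h1 : ∀ x, ∃ y, (p : ℤ_[p]) • x = (π ^ N) y) (h2 : ∀ x, ∃ y, (π ^ N) x = (p : ℤ_[p]) • y)
  (hinj : ∀ x, π x = 0 → x = 0)
  (huni : ∀ v w : T, (∃ (a : ℤ_[p]) (t : T), w = a • v + π t) ∨
    ∃ (a : ℤ_[p]) (t : T), v = a • w + π t)

include hL h2 in
theorem exists_not_mem : ∃ v : T, ∀ t, v ≠ π t := by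
  by_contra hcon
  push Not at hcon
  obtain ⟨hfin, -, x0, hx0⟩ := hL
  have h3 : ∀ m : ℕ, ∀ x, ∃ t, x = (π ^ m) t := by
    intro m
    induction m with
    | zero => exact fun x => ⟨x, by rw [pow_zero]; rfl⟩
    | succ m ih =>
      intro x
      obtain ⟨t, ht⟩ := ih x
      obtain ⟨t', ht'⟩ := hcon t
      refine ⟨t', ?_⟩
      rw [ht, ht', pow_succ]
      rfl
  have h4 := nak hfin ⊥ (fun x => by
    obtain ⟨t, ht⟩ := h3 N x
    obtain ⟨y, hy⟩ := h2 t
    exact ⟨0, Submodule.zero_mem _, y, by rw [zero_add, ht, hy]⟩) x0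
  exact hx0 ((Submodule.mem_bot _).1 h4)

include hN h1 in
theorem p_mem (x : T) : ∃ t, (p : ℤ_[p]) • x = π t := by
  obtain ⟨y, hy⟩ := h1 x
  refine ⟨(π ^ (N - 1)) y, ?_⟩
  rw [hy]
  have h3 : N = (N - 1) + 1 := by omega
  conv_lhs => rw [h3, pow_succ']
  rfl

include hN h1 huni in
theorem gen1 (v : T) (hv : ∀ t, v ≠ π t) (w : T) : ∃ (a : ℤ_[p]) (t : T), w = a • v + π t := by
  rcases huni v w with h | ⟨a, t, h⟩
  · exact h
  · by_cases ha : (p : ℤ_[p]) ∣ a
    · obtain ⟨b, rfl⟩ := ha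
      exfalso
      obtain ⟨t', ht'⟩ := p_mem π N hN h1 (b • w)
      apply hv (t' + t)
      rw [map_add, ← ht', smul_smul, ← h]
    · obtain ⟨u, hu⟩ := unit_of_not_dvd ha
      refine ⟨((u⁻¹ : ℤ_[p]ˣ) : ℤ_[p]), -(((u⁻¹ : ℤ_[p]ˣ) : ℤ_[p]) • t), ?_⟩
      rw [h, ← hu, smul_add, smul_smul, Units.inv_mul, one_smul, map_neg, map_smul]
      abel

/-- the cyclic submodule -/
def cyc (v : T) : Submodule ℤ_[p] T where
  carrier := {x | ∃ f : ℤ_[p][X], x = aeval π f v}
  zero_mem' := ⟨0, by simp⟩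
  add_mem' := by
    rintro a b ⟨f, rfl⟩ ⟨g, rfl⟩
    exact ⟨f + g, by rw [map_add]; rfl⟩
  smul_mem' := by
    rintro c x ⟨f, rfl⟩
    exact ⟨c • f, by rw [map_smul]; rfl⟩

include hL hN h1 h2 huni in
theorem gen2 (v : T) (hv : ∀ t, v ≠ π t) (x : T) : ∃ f : ℤ_[p][X], x = aeval π f v := by
  have h3 : ∀ m : ℕ, ∀ x : T, ∃ y ∈ cyc π v, ∃ t, x = y + (π ^ m) t := by
    intro m
    induction m with
    | zero => exact fun x => ⟨0, Submodule.zero_mem _, x, by rw [pow_zero, zero_add]; rfl⟩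
    | succ m ih =>
      intro x
      obtain ⟨y, hy, t, ht⟩ := ih x
      obtain ⟨a, t', ht'⟩ := gen1 π N hN h1 huni v hv t
      refine ⟨y + a • (π ^ m) v, Submodule.add_mem _ hy (Submodule.smul_mem _ _
        ⟨X ^ m, by rw [map_pow, aeval_X]⟩), t', ?_⟩
      rw [ht, ht', map_add, map_smul, pow_succ]
      have : (π ^ m * π) t' = (π ^ m) (π t') := rfl
      rw [this]
      abel
  exact nak hL.1 (cyc π v) (fun x => by
    obtain ⟨y, hy, t, ht⟩ := h3 N x
    obtain ⟨t', ht'⟩ := h2 t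
    exact ⟨y, hy, t', by rw [ht, ht']⟩) x

include hinj in
theorem pow_inj (m : ℕ) (x : T) (h : (π ^ m) x = 0) : x = 0 := by
  induction m with
  | zero => rw [pow_zero] at h; exact h
  | succ m ih =>
    rw [pow_succ'] at h
    exact ih (hinj _ h)

include h1 hinj in
theorem coeff_dvd (v : T) (hv : ∀ t, v ≠ π t) (f : ℤ_[p][X]) (hf : f.natDegree < N)
    (h0 : aeval π f v = 0) (i : ℕ) : (p : ℤ_[p]) ∣ f.coeff i := by
  induction i using Nat.strong_induction_on with
  | _ i ih =>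
    rcases Nat.lt_or_ge i N with hi | hi
    · by_contra hnd
      have hsum : ∑ j ∈ Finset.range N, f.coeff j • (π ^ j) v = 0 := by
        rw [aeval_eq_sum_range' hf] at h0
        rw [← h0, LinearMap.sum_apply]
        rfl
      rw [← Finset.add_sum_erase _ _ (Finset.mem_range.2 hi)] at hsum
      have hmem : ∑ j ∈ (Finset.range N).erase i, f.coeff j • (π ^ j) v ∈
          LinearMap.range (π ^ (i + 1)) := by
        refine Submodule.sum_mem _ fun j hj => ?_
        rw [Finset.mem_erase, Finset.mem_range] at hj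
        rcases Nat.lt_or_gt_of_ne hj.1 with hji | hji
        · obtain ⟨b, hb⟩ := ih j hji
          obtain ⟨y, hy⟩ := h1 v
          refine ⟨(π ^ (N + j - (i + 1))) (b • y), ?_⟩
          have h3 : (π ^ (i + 1)) ((π ^ (N + j - (i + 1))) (b • y)) = (π ^ (N + j)) (b • y) := by
            have h4 : N + j = (i + 1) + (N + j - (i + 1)) := by omega
            conv_rhs => rw [h4, pow_add]
            rfl
          rw [h3, hb, mul_comm, mul_smul, add_comm N j, pow_add]
          have h5 : (π ^ j * π ^ N) (b • y) = (π ^ j) ((π ^ N) (b • y)) := rfl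
          rw [h5, map_smul, ← hy, map_smul, map_smul]
        · refine ⟨(π ^ (j - (i + 1))) (f.coeff j • v), ?_⟩
          have h4 : j = (i + 1) + (j - (i + 1)) := by omega
          have h3 : (π ^ (i + 1)) ((π ^ (j - (i + 1))) (f.coeff j • v)) =
              (π ^ j) (f.coeff j • v) := by
            conv_rhs => rw [h4, pow_add]
            rw [← h4]
            rfl
          rw [h3, map_smul]
      obtain ⟨t, ht⟩ := hmem
      obtain ⟨u, hu⟩ := unit_of_not_dvd hnd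
      rw [← ht, ← hu, pow_succ] at hsum
      have h5 : (π ^ i * π) t = (π ^ i) (π t) := rfl
      have h6 : (π ^ i) (v + ((u⁻¹ : ℤ_[p]ˣ) : ℤ_[p]) • π t) = 0 := by
        have h7 := congrArg (fun z => ((u⁻¹ : ℤ_[p]ˣ) : ℤ_[p]) • z) hsum
        simp only [smul_zero] at h7
        rw [h5, smul_add, smul_smul, Units.inv_mul, one_smul] at h7
        rw [map_add, map_smul]
        exact h7
      have h8 := pow_inj π hinj i _ h6
      apply hv (-(((u⁻¹ : ℤ_[p]ˣ) : ℤ_[p]) • t))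
      rw [map_neg, map_smul]
      exact eq_neg_of_add_eq_zero_left h8
    · rw [coeff_eq_zero_of_natDegree_lt (by omega)]
      exact dvd_zero _

include hL h1 hinj in
theorem indep (v : T) (hv : ∀ t, v ≠ π t) (f : ℤ_[p][X]) (hf : f.natDegree < N)
    (h0 : aeval π f v = 0) : f = 0 := by
  have hp0 : (p : ℤ_[p]) ≠ 0 := by
    exact_mod_cast (Fact.out : p.Prime).ne_zero
  have key : ∀ k : ℕ, ∀ f : ℤ_[p][X], f.natDegree < N → aeval π f v = 0 →
      ∀ i, (p : ℤ_[p]) ^ k ∣ f.coeff i := by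
    intro k
    induction k with
    | zero => exact fun f _ _ i => by rw [pow_zero]; exact one_dvd _
    | succ k ih =>
      intro f hf h0 i
      obtain ⟨f', hf'⟩ := (C_dvd_iff_dvd_coeff _ _).2 (coeff_dvd π N h1 hinj v hv f hf h0)
      have hdeg : f'.natDegree < N := by
        rw [hf', natDegree_C_mul hp0] at hf
        exact hf
      have h3 : aeval π f' v = 0 := by
        apply hL.2.1
        rw [hf', map_mul, aeval_C] at h0
        exact h0
      have h4 := ih f' hdeg h3 i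
      rw [hf', coeff_C_mul, pow_succ, mul_comm]
      exact mul_dvd_mul_left _ h4
  ext i
  rw [coeff_zero]
  exact zero_of_dvd _ fun k => key k f hf h0 i

end lattice

theorem main : S_IRR → S_CYC1 := by
  intro hIRR p hp P T _ _ _ _ ρ hL hU hρ g e hg hord
  have hpp : p.Prime := hp.out
  obtain ⟨q, hq⟩ : ∃ q, q = p ^ e := ⟨_, rfl⟩
  have hq0 : 0 < q := by rw [hq]; exact pow_pos hpp.pos e
  obtain ⟨N, hNd⟩ : ∃ N, N = (p - 1) * p ^ e := ⟨_, rfl⟩
  have hN : 0 < N := by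
    rw [hNd, ← hq]
    exact Nat.mul_pos (by have := hpp.one_lt; omega) hq0
  -- everything is a power of `g`
  have hpow : ∀ x : P, ∃ k : ℕ, g ^ k = x := by
    intro x
    have h1 := hg x
    rw [← mem_powers_iff_mem_zpowers] at h1
    exact h1
  have hcomm : ∀ (k : ℕ) (h : P) (x : T), (ρ g ^ k) (ρ h x) = ρ h ((ρ g ^ k) x) := by
    intro k h x
    obtain ⟨l, rfl⟩ := hpow h
    rw [map_pow]
    have h1 : (ρ g ^ k) ((ρ g ^ l) x) = (ρ g ^ (k + l)) x := by
      rw [pow_add]; rfl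
    have h2 : (ρ g ^ l) ((ρ g ^ k) x) = (ρ g ^ (k + l)) x := by
      rw [add_comm k l, pow_add]; rfl
    rw [h1, h2]
  -- `G ^ k - 1` is injective if `g ^ k ≠ 1`
  have hinj : ∀ k : ℕ, g ^ k ≠ 1 → ∀ x, (ρ g ^ k - 1 : Module.End ℤ_[p] T) x = 0 → x = 0 := by
    intro k hk
    rcases hIRR p P T ρ hL hU (ρ g ^ k - 1 : Module.End ℤ_[p] T) (by
      intro h x hx
      rw [LinearMap.sub_apply, Module.End.one_apply] at hx ⊢
      rw [hcomm, ← map_sub, hx, map_zero]) with h | h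
    · exact h
    · exfalso
      apply hk
      apply hρ
      rw [map_pow, map_one]
      ext x
      have h1 := h x
      rw [LinearMap.sub_apply, Module.End.one_apply] at h1
      exact sub_eq_zero.1 h1
  have hq1 : g ^ q ≠ 1 := by
    intro h
    have h1 := orderOf_dvd_of_pow_eq_one h
    rw [hord, hq] at h1
    have h2 := Nat.le_of_dvd (pow_pos hpp.pos e) h1
    have h3 : p ^ e < p ^ (e + 1) := Nat.pow_lt_pow_right hpp.one_lt (Nat.lt_succ_self e)
    omega
  have hg1 : g ^ 1 ≠ 1 := by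
    intro h
    apply hq1
    rw [pow_one] at h
    rw [h, one_pow]
  have hsum : ∑ i ∈ Finset.range p, ρ g ^ (i * p ^ e) = 0 := by
    have h1 : (ρ g ^ q - 1) * ∑ i ∈ Finset.range p, (ρ g ^ q) ^ i = (ρ g ^ q) ^ p - 1 :=
      mul_geom_sum (ρ g ^ q) p
    have h2 : (ρ g ^ q) ^ p = 1 := by
      rw [← pow_mul, ← map_pow, hq, ← pow_succ, ← hord, pow_orderOf_eq_one, map_one]
    rw [h2, sub_self] at h1
    ext x
    rw [LinearMap.zero_apply]
    apply hinj q hq1
    have h3 : (∑ i ∈ Finset.range p, ρ g ^ (i * p ^ e)) =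
        ∑ i ∈ Finset.range p, (ρ g ^ q) ^ i := by
      refine Finset.sum_congr rfl fun i _ => ?_
      rw [← pow_mul, mul_comm, hq]
    rw [h3]
    have h4 := congrArg (fun A : Module.End ℤ_[p] T => A x) h1
    exact h4
  refine ⟨hsum, ?_⟩
  obtain ⟨S, hS⟩ := poly_id p e
  obtain ⟨V, hV⟩ := poly_inv S p ((p - 1) * p ^ e) _ hS
  rw [← hNd] at hS hV
  obtain ⟨G, hG⟩ : ∃ G : Module.End ℤ_[p] T, G = ρ g := ⟨_, rfl⟩
  have hΦ0 : aeval G (∑ i ∈ Finset.range p, (X : ℤ[X]) ^ (i * p ^ e)) = 0 := by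
    rw [map_sum, ← hsum, hG]
    refine Finset.sum_congr rfl fun i _ => ?_
    rw [map_pow, aeval_X]
  obtain ⟨u, hu⟩ : ∃ u : Module.End ℤ_[p] T, u = aeval G (1 + (X - 1) * S : ℤ[X]) := ⟨_, rfl⟩
  obtain ⟨u', hu'⟩ : ∃ u' : Module.End ℤ_[p] T, u' = aeval G V := ⟨_, rfl⟩
  have e1 : (G - 1) ^ N + (p : Module.End ℤ_[p] T) * u = 0 := by
    rw [hS] at hΦ0
    simp only [map_add, map_mul, map_pow, map_sub, aeval_X, map_one, map_natCast] at hΦ0 hu
    rw [hu]
    exact hΦ0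
  have e2 : u * u' = 1 := by
    have h1 := congrArg (aeval G) hV
    rw [map_mul, map_sub, map_mul, hΦ0, mul_zero, sub_zero, map_one, ← hu, ← hu'] at h1
    exact h1
  have hpx : ∀ x : T, (p : Module.End ℤ_[p] T) x = (p : ℤ_[p]) • x := by
    intro x
    rw [Module.End.natCast_apply, Nat.cast_smul_eq_nsmul]
  have h1 : ∀ x, ∃ y, (p : ℤ_[p]) • x = ((G - 1) ^ N) y := by
    intro x
    refine ⟨-(u' x), ?_⟩
    have h3 := congrArg (fun A : Module.End ℤ_[p] T => A (u' x)) e1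
    have h4 := congrArg (fun A : Module.End ℤ_[p] T => A x) e2
    have h5 : ((G - 1) ^ N) (u' x) + (p : Module.End ℤ_[p] T) (u (u' x)) = 0 := h3
    have h6 : u (u' x) = x := h4
    rw [h6, hpx] at h5
    rw [map_neg]
    exact eq_neg_of_add_eq_zero_right h5
  have h2 : ∀ x, ∃ y, ((G - 1) ^ N) x = (p : ℤ_[p]) • y := by
    intro x
    refine ⟨-(u x), ?_⟩
    have h3 := congrArg (fun A : Module.End ℤ_[p] T => A x) e1
    have h5 : ((G - 1) ^ N) x + (p : Module.End ℤ_[p] T) (u x) = 0 := h3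
    rw [hpx] at h5
    rw [smul_neg]
    exact eq_neg_of_add_eq_zero_left h5
  have hinj1 : ∀ x, (G - 1) x = 0 → x = 0 := by
    have := hinj 1 hg1
    rw [pow_one, ← hG] at this
    exact this
  have huni : ∀ v w : T, (∃ (a : ℤ_[p]) (t : T), w = a • v + (G - 1) t) ∨
      ∃ (a : ℤ_[p]) (t : T), v = a • w + (G - 1) t := by
    have hinv : ∀ v : T, ∀ h : P, ∀ x ∈ Submodule.span ℤ_[p] {v} ⊔ LinearMap.range (G - 1),
        ρ h x ∈ Submodule.span ℤ_[p] {v} ⊔ LinearMap.range (G - 1) := by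
      intro v h x hx
      obtain ⟨k, rfl⟩ := hpow h
      rw [map_pow, ← hG]
      induction k with
      | zero => rw [pow_zero]; exact hx
      | succ k ih =>
        rw [pow_succ']
        have h3 : (G * G ^ k) x = (G ^ k) x + (G - 1) ((G ^ k) x) := by
          rw [LinearMap.sub_apply, Module.End.one_apply, add_sub_cancel]
          rfl
        rw [h3]
        exact Submodule.add_mem _ ih (Submodule.mem_sup_right ⟨_, rfl⟩)
    have hind : ∀ v : T, ∃ n : ℕ, ∀ x : T, (p : ℤ_[p]) ^ n • x ∈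
        Submodule.span ℤ_[p] {v} ⊔ LinearMap.range (G - 1) := by
      intro v
      refine ⟨1, fun x => ?_⟩
      rw [pow_one]
      obtain ⟨t, ht⟩ := p_mem (G - 1) N hN h1 x
      rw [ht]
      exact Submodule.mem_sup_right ⟨_, rfl⟩
    have hmem : ∀ v w : T, w ∈ Submodule.span ℤ_[p] {v} ⊔ LinearMap.range (G - 1) →
        ∃ (a : ℤ_[p]) (t : T), w = a • v + (G - 1) t := by
      intro v w hw
      obtain ⟨y, hy, z, hz, rfl⟩ := Submodule.mem_sup.1 hw
      obtain ⟨a, rfl⟩ := Submodule.mem_span_singleton.1 hy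
      obtain ⟨t, rfl⟩ := hz
      exact ⟨a, t, rfl⟩
    have hself : ∀ v : T, v ∈ Submodule.span ℤ_[p] {v} ⊔ LinearMap.range (G - 1) := fun v =>
      Submodule.mem_sup_left (Submodule.mem_span_singleton_self v)
    intro v w
    rcases hU _ _ (hinv v) (hinv w) (hind v) (hind w) with h | h
    · right
      exact hmem w v (h (hself v))
    · left
      exact hmem v w (h (hself w))
  obtain ⟨v, hv⟩ := exists_not_mem hL (G - 1) N h2
  have haev : ∀ f : ℤ_[p][X], aeval (G - 1) (taylor 1 f) = aeval G f := by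
    intro f
    rw [taylor_apply, aeval_comp, map_add, aeval_X, aeval_C, map_one, sub_add_cancel]
  refine ⟨v, fun x => ?_, fun f hf h0 => ?_⟩
  · obtain ⟨f, hf⟩ := gen2 hL (G - 1) N hN h1 h2 huni v hv x
    refine ⟨taylor (-1) f, ?_⟩
    rw [← hG, hf, ← haev, taylor_taylor]
    simp
  · rw [← hG, ← haev] at h0
    have h3 := indep hL (G - 1) N h1 hinj1 v hv (taylor 1 f) (by
      rw [natDegree_taylor, hNd]; exact hf) h0
    exact (map_eq_zero_iff _ (taylor_injective 1)).1 h3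

end Pool.Agent.W160.SG.Cyc1
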