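import Pool.Agent.W37.SG.Stm2

/-!
# SG-PHI: the chart
-/

set_option autoImplicit false

namespace Pool.Agent.W160.SG.Phi

open Pool.Agent.W37.SG

/-! ### `p`-adic integers -/

section padic
variable {p : ℕ} [Fact p.Prime]

theorem smod_iff (n : ℕ) (x y : ℤ_[p]) :
    x ≡ y [SMOD (IsLocalRing.maximalIdeal ℤ_[p] ^ n • ⊤ : Submodule ℤ_[p] ℤ_[p])] ↔
      (p : ℤ_[p]) ^ n ∣ x - y := by
  rw [SModEq.sub_mem, smul_eq_mul, Ideal.mul_top, PadicInt.maximalIdeal_eq_span_p,
    Ideal.span_singleton_pow, Ideal.mem_span_singleton]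

theorem eq_of_dvd (x y : ℤ_[p]) (h : ∀ n, (p : ℤ_[p]) ^ n ∣ x - y) : x = y := by
  have h1 : IsHausdorff (IsLocalRing.maximalIdeal ℤ_[p]) ℤ_[p] := inferInstance
  have h2 := h1.haus' (x - y) fun n => by
    rw [smod_iff, sub_zero]
    exact h n
  exact sub_eq_zero.1 h2

theorem exists_lim (f : ℕ → ℤ_[p]) (h : ∀ m, (p : ℤ_[p]) ^ m ∣ f (m + 1) - f m) :
    ∃ z : ℤ_[p], ∀ m, (p : ℤ_[p]) ^ m ∣ z - f m := by
  have h0 : ∀ m k, (p : ℤ_[p]) ^ m ∣ f (m + k) - f m := by
    intro m k
    induction k with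
    | zero => simp
    | succ k ih =>
      have h1 : (p : ℤ_[p]) ^ m ∣ f (m + k + 1) - f (m + k) :=
        (pow_dvd_pow _ (Nat.le_add_right m k)).trans (h (m + k))
      have h2 := dvd_add h1 ih
      rw [sub_add_sub_cancel] at h2
      exact h2
  have h1 : IsPrecomplete (IsLocalRing.maximalIdeal ℤ_[p]) ℤ_[p] := inferInstance
  obtain ⟨L, hL⟩ := h1.prec' f (by
    intro m n hmn
    rw [smod_iff]
    obtain ⟨k, rfl⟩ := Nat.exists_eq_add_of_le hmn
    rw [← dvd_neg, neg_sub]
    exact h0 m k)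
  refine ⟨L, fun m => ?_⟩
  have h2 := (smod_iff m (f m) L).1 (hL m)
  rw [← dvd_neg, neg_sub] at h2
  exact h2

theorem nat_dvd (m a b : ℕ) : (p : ℤ_[p]) ^ m ∣ (a : ℤ_[p]) - (b : ℤ_[p]) ↔
    ((p ^ m : ℕ) : ℤ) ∣ (a : ℤ) - b := by
  have h := PadicInt.pow_p_dvd_int_iff (p := p) m ((a : ℤ) - b)
  push_cast at h ⊢
  exact h

end padic

/-! ### triangular maps -/

section tri
variable {p : ℕ} [Fact p.Prime]

theorem Agr.symm' {k : ℕ} {x y : ℕ → ZMod p} (h : Agr p k x y) : Agr p k y x :=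
  fun j hj => (h j hj).symm

theorem Agr.trans' {k : ℕ} {x y z : ℕ → ZMod p} (h : Agr p k x y) (h' : Agr p k y z) :
    Agr p k x z := fun j hj => (h j hj).trans (h' j hj)

theorem Agr.mono' {k l : ℕ} {x y : ℕ → ZMod p} (h : Agr p l x y) (hkl : k ≤ l) :
    Agr p k x y := fun j hj => h j (hj.trans_le hkl)

theorem tri_agr {g : Pm p} (hg : IsTri p g) {k : ℕ} {x y : ℕ → ZMod p} (h : Agr p k x y) :
    Agr p k (g x) (g y) := by
  intro j hj
  have h1 := hg j x y fun i hi => h i (hi.trans hj)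
  rw [h j hj] at h1
  exact sub_left_inj.1 h1

theorem tri_one : IsTri p (1 : Pm p) := by
  intro i x y _
  simp

variable (hD4 : S_D4)
include hD4

theorem tri_pow {X : Pm p} (hX : IsTri p X) (t : ℕ) : IsTri p (X ^ t) := by
  induction t with
  | zero => rw [pow_zero]; exact tri_one
  | succ t ih =>
    rw [pow_succ]
    exact (hD4 p (X ^ t) X ih hX).1

end tri

section main
variable {p s : ℕ} [Fact p.Prime] {X : Pm p} (hX : ∀ t : ℕ, IsTri p (X ^ t))
  (hk : ∀ m, IsKer p (s + m) (X ^ p ^ m)) (c : ℕ → ZMod p) (hc0 : ∀ m, c m ≠ 0)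
  (hc : ∀ m x, (X ^ p ^ m) x (s + m) = x (s + m) + c m)

include hk in
theorem pow_ker (m l : ℕ) (x : ℕ → ZMod p) (i : ℕ) (hi : i < s + m) :
    (X ^ (p ^ m * l)) x i = x i := by
  rw [pow_mul]
  induction l with
  | zero => rw [pow_zero]; rfl
  | succ l ih =>
    rw [pow_succ', Equiv.Perm.mul_apply, hk m _ i hi, ih]

include hc in
theorem pow_coord (m l : ℕ) (x : ℕ → ZMod p) :
    (X ^ (p ^ m * l)) x (s + m) = x (s + m) + l * c m := by
  rw [pow_mul]
  induction l with
  | zero => rw [pow_zero]; simp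
  | succ l ih =>
    rw [pow_succ', Equiv.Perm.mul_apply, hc m _, ih]
    push_cast
    ring

include hk hc hc0 in
/-- step (1) -/
theorem reach (x y : ℕ → ZMod p) (h : Agr p s x y) (m : ℕ) :
    ∃ t : ℕ, Agr p (s + m) ((X ^ t) y) x := by
  induction m with
  | zero =>
    refine ⟨0, ?_⟩
    rw [pow_zero]
    exact Agr.symm' h
  | succ m ih =>
    obtain ⟨t, ht⟩ := ih
    set l : ℕ := ((x (s + m) - (X ^ t) y (s + m)) / c m).val with hl
    refine ⟨p ^ m * l + t, fun j hj => ?_⟩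
    rw [pow_add, Equiv.Perm.mul_apply]
    rcases Nat.lt_or_ge j (s + m) with h1 | h1
    · rw [pow_ker hk m l _ j h1]
      exact ht j h1
    · have h2 : j = s + m := by omega
      subst h2
      rw [pow_coord c hc m l, hl, ZMod.natCast_zmod_val, div_mul_cancel₀ _ (hc0 m)]
      ring

include hk hc hc0 in
/-- step (2) -/
theorem period (z : ℕ → ZMod p) (m t : ℕ) :
    Agr p (s + m) ((X ^ t) z) z ↔ p ^ m ∣ t := by
  constructor
  · intro h
    induction m with
    | zero => simp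
    | succ m ih =>
      obtain ⟨l, hl⟩ := ih (Agr.mono' h (by omega))
      have h1 := h (s + m) (by omega)
      rw [hl, pow_coord c hc m l] at h1
      have h2 : (l : ZMod p) * c m = 0 := by
        have h3 : z (s + m) + (l : ZMod p) * c m = z (s + m) + 0 := by rw [h1, add_zero]
        exact add_left_cancel h3
      have h3 : (l : ZMod p) = 0 := by
        rcases mul_eq_zero.1 h2 with h | h
        · exact h
        · exact absurd h (hc0 m)
      rw [ZMod.natCast_eq_zero_iff] at h3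
      rw [hl, pow_succ]
      exact Nat.mul_dvd_mul_left _ h3
  · rintro ⟨l, rfl⟩ j hj
    exact pow_ker hk m l z j hj

include hk hc hc0 in
theorem period_le (z : ℕ → ZMod p) (m t t' : ℕ) (htt : t' ≤ t) :
    Agr p (s + m) ((X ^ t) z) ((X ^ t') z) ↔ p ^ m ∣ t - t' := by
  rw [← period hk c hc0 hc ((X ^ t') z) m (t - t'), ← Equiv.Perm.mul_apply, ← pow_add,
    Nat.sub_add_cancel htt]

include hk hc hc0 in
theorem period2 (z : ℕ → ZMod p) (m t t' : ℕ) :
    Agr p (s + m) ((X ^ t) z) ((X ^ t') z) ↔ (p : ℤ_[p]) ^ m ∣ (t : ℤ_[p]) - t' := by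
  rw [nat_dvd]
  rcases le_total t' t with h | h
  · rw [period_le hk c hc0 hc z m t t' h, ← Nat.cast_sub h, Int.natCast_dvd_natCast]
  · have h1 : Agr p (s + m) ((X ^ t) z) ((X ^ t') z) ↔ Agr p (s + m) ((X ^ t') z) ((X ^ t) z) :=
      ⟨Agr.symm', Agr.symm'⟩
    have h2 : ((p ^ m : ℕ) : ℤ) ∣ (t : ℤ) - t' ↔ ((p ^ m : ℕ) : ℤ) ∣ (t' : ℤ) - t := by
      rw [← dvd_neg, neg_sub]
    rw [h1, period_le hk c hc0 hc z m t' t h, h2, ← Nat.cast_sub h, Int.natCast_dvd_natCast]

/-- the base point of the fibre -/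
def bp (s : ℕ) (x : ℕ → ZMod p) : ℕ → ZMod p := fun j => if j < s then x j else 0

theorem bp_agr (x : ℕ → ZMod p) : Agr p s x (bp s x) := by
  intro j hj
  simp [bp, hj]

theorem bp_eq {x y : ℕ → ZMod p} (h : Agr p s x y) : bp s x = bp s y := by
  funext j
  unfold bp
  split_ifs with hj
  · exact h j hj
  · rfl

include hk hc hc0 in
theorem ex_phi (x : ℕ → ZMod p) : ∃ z : ℤ_[p], ∀ m, ∃ t : ℕ,
    Agr p (s + m) ((X ^ t) (bp s x)) x ∧ (p : ℤ_[p]) ^ m ∣ z - t := by
  choose t ht using reach hk c hc0 hc x (bp s x) (bp_agr x)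
  obtain ⟨z, hz⟩ := exists_lim (p := p) (fun m => (t m : ℤ_[p])) (by
    intro m
    rw [← period2 hk c hc0 hc (bp s x)]
    exact Agr.trans' (Agr.mono' (ht (m + 1)) (by omega)) (Agr.symm' (ht m)))
  exact ⟨z, fun m => ⟨t m, ht m, hz m⟩⟩

include hX hk hc hc0 in
theorem chart : ∃ Φ : Zf p, ChartHyp p s X Φ := by
  choose Φ hΦ using ex_phi hk c hc0 hc
  -- characterisation
  have K : ∀ x (m t : ℕ), Agr p (s + m) ((X ^ t) (bp s x)) x ↔ (p : ℤ_[p]) ^ m ∣ Φ x - t := by
    intro x m t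
    obtain ⟨t', ht', hd⟩ := hΦ x m
    constructor
    · intro h
      have h1 := (period2 hk c hc0 hc (bp s x) m t' t).1 (Agr.trans' ht' (Agr.symm' h))
      have h2 := dvd_add hd h1
      rw [sub_add_sub_cancel] at h2
      exact h2
    · intro h
      have h1 : (p : ℤ_[p]) ^ m ∣ (t : ℤ_[p]) - t' := by
        have h2 := dvd_sub hd h
        rw [sub_sub_sub_cancel_left] at h2
        exact h2
      exact Agr.trans' ((period2 hk c hc0 hc (bp s x) m t t').2 h1) ht'
  have hX1 : IsTri p X := by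
    have := hX 1
    rwa [pow_one] at this
  have hk0 : ∀ x i, i < s → X x i = x i := by
    intro x i hi
    have := hk 0 x i (by omega)
    rwa [pow_zero, pow_one] at this
  have hkt : ∀ t : ℕ, ∀ x i, i < s → (X ^ t) x i = x i := by
    intro t x i hi
    have := pow_ker hk 0 t x i (by omega)
    rwa [pow_zero, one_mul] at this
  refine ⟨Φ, ⟨?_, ?_, ?_⟩⟩
  · intro m x y hxy
    obtain ⟨t, ht, hd⟩ := hΦ x m
    have hb := bp_eq hxy
    constructor
    · intro h
      have h1 : Agr p (s + m) ((X ^ t) (bp s y)) y := by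
        rw [← hb]
        exact Agr.trans' ht h
      have h2 := (K y m t).1 h1
      have h3 := dvd_sub hd h2
      rw [sub_sub_sub_cancel_right] at h3
      exact h3
    · intro h
      have h2 : (p : ℤ_[p]) ^ m ∣ Φ y - t := by
        have h3 := dvd_sub hd h
        rw [sub_sub_sub_cancel_left] at h3
        exact h3
      have h4 := (K y m t).2 h2
      rw [← hb] at h4
      exact Agr.trans' (Agr.symm' ht) h4
  · intro x
    refine eq_of_dvd _ _ fun m => ?_
    obtain ⟨t, ht, hd⟩ := hΦ x m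
    have hb : bp s (X x) = bp s x := bp_eq fun j hj => hk0 x j hj
    have h1 : Agr p (s + m) ((X ^ (t + 1)) (bp s (X x))) (X x) := by
      rw [hb, pow_succ', Equiv.Perm.mul_apply]
      exact tri_agr hX1 ht
    have h2 := (K (X x) m (t + 1)).1 h1
    have h3 := dvd_sub h2 hd
    have h4 : Φ (X x) - ((t + 1 : ℕ) : ℤ_[p]) - (Φ x - t) = Φ (X x) - (Φ x + 1) := by
      push_cast
      ring
    rw [h4] at h3
    exact h3
  · intro x z
    have hz : ∀ m, (p : ℤ_[p]) ^ m ∣ z - (z.appr m : ℤ_[p]) := by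
      intro m
      exact Ideal.mem_span_singleton.1 (PadicInt.appr_spec m z)
    refine ⟨fun j => if j < s then x j else (X ^ (z.appr (j - s + 1))) (bp s x) j, ?_, ?_⟩
    · intro j hj
      simp [hj]
    · set y : ℕ → ZMod p := fun j => if j < s then x j else
        (X ^ (z.appr (j - s + 1))) (bp s x) j with hy
      have hxy : Agr p s x y := by
        intro j hj
        simp [hy, hj]
      have hb := bp_eq hxy
      refine eq_of_dvd _ _ fun m => ?_
      have h1 : Agr p (s + m) ((X ^ (z.appr m)) (bp s y)) y := by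
        rw [← hb]
        intro j hj
        rcases Nat.lt_or_ge j s with hjs | hjs
        · rw [hkt _ _ j hjs, ← bp_agr x j hjs]
          exact hxy j hjs
        · obtain ⟨i, rfl⟩ := Nat.exists_eq_add_of_le hjs
          have h2 : y (s + i) = (X ^ (z.appr (i + 1))) (bp s x) (s + i) := by
            simp only [hy]
            rw [if_neg (by omega), Nat.add_sub_cancel_left]
          rw [h2]
          have h3 : (p : ℤ_[p]) ^ (i + 1) ∣ (z.appr m : ℤ_[p]) - (z.appr (i + 1) : ℤ_[p]) := by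
            have h4 := dvd_sub (hz (i + 1))
              ((pow_dvd_pow (p : ℤ_[p]) (by omega : i + 1 ≤ m)).trans (hz m))
            rw [sub_sub_sub_cancel_left] at h4
            exact h4
          exact (period2 hk c hc0 hc (bp s x) (i + 1) _ _).2 h3 (s + i) (by omega)
      have h2 := (K y m (z.appr m)).1 h1
      have h3 := dvd_sub h2 (hz m)
      rw [sub_sub_sub_cancel_right] at h3
      exact h3

end main

theorem main : Pool.Agent.W37.SG.S_PHI := by
  intro hD1 hD3 hD4 hDC hXP p _ s Q X hQ hX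
  have h := hXP hD1 hD3 hD4 hDC p s Q X hQ hX
  choose c hc0 hc using fun m => (h m).2.2.2
  exact chart (tri_pow hD4 (hQ X hX.mem)) (fun m => (h m).2.2.1) c hc0 hc

end Pool.Agent.W160.SG.Phi
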